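import Pool.Agent.BAR1.Base
import Pool.Agent.PHW.Num2
import Pool.Agent.EXP.CutFinal
import Pool.Agent.EXL.Final

/-!
BAR1, part 4: the tail of the irreducible bridges from below, words with many cuts have a small weight.
-/

set_option autoImplicit false

namespace HexObs

open Complex Finset ENNReal

namespace BAR

lemma BT_le_one0 (T : ℕ) : BT T ≤ 1 := PLW.BT_le_o T

lemma kap_ofReal (r : ℕ) : kap' r = ENNReal.ofReal (kk r) := by
  unfold kk
  rw [ENNReal.ofReal_toReal]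
  refine ne_top_of_le_ne_top ENNReal.one_ne_top ?_
  calc kap' r ≤ gf (Brd r) := gf_mono fun t ht => ht.1
    _ ≤ 1 := PLW.gf_Brd_le r

lemma sum_kk_eq (m : ℕ) : ∑ r ∈ Finset.Icc 1 m, kk r = 1 - KK' (m + 1) := by
  induction m with
  | zero =>
    unfold KK'
    rw [Finset.sum_range_one, kk_zero]
    simp
  | succ m ih =>
    rw [Finset.sum_Icc_succ_top (by omega), ih]
    unfold KK'
    rw [Finset.sum_range_succ _ (m + 1)]
    ring

theorem gf_Irr_le (m : ℕ) : gf (⋃ r ∈ Finset.Icc 1 m, Irr r) = ENNReal.ofReal (1 - KK' (m + 1)) := by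
  rw [gf_biUnion]
  · rw [← sum_kk_eq, ENNReal.ofReal_sum_of_nonneg (fun r _ => kk_nonneg r)]
    exact Finset.sum_congr rfl fun r _ => kap_ofReal r
  · intro i _ j _ hij
    rw [Set.disjoint_left]
    intro t h1 h2
    exact hij (Brd_height h1.1 h2.1)

theorem gf_MC (m k : ℕ) : gf (MC m k) ≤ ENNReal.ofReal ((1 - KK' (m + 1)) ^ k) * HH m := by
  have h0 : 0 ≤ 1 - KK' (m + 1) := by linarith [KK_le_one (m + 1)]
  induction k with
  | zero =>
    rw [pow_zero, ENNReal.ofReal_one, one_mul]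
    exact le_of_eq rfl
  | succ k ih =>
    have h1 : gf (MC m (k + 1)) ≤ gf (⋃ r ∈ Finset.Icc 1 m, Irr r) * gf (MC m k) :=
      gf_le_mul fun t ht => ht
    calc gf (MC m (k + 1)) ≤ gf (⋃ r ∈ Finset.Icc 1 m, Irr r) * gf (MC m k) := h1
      _ ≤ ENNReal.ofReal (1 - KK' (m + 1)) * (ENNReal.ofReal ((1 - KK' (m + 1)) ^ k) * HH m) := by
          rw [gf_Irr_le]
          exact mul_le_mul_right ih _
      _ = ENNReal.ofReal ((1 - KK' (m + 1)) ^ (k + 1)) * HH m := by
          rw [← mul_assoc, ← ENNReal.ofReal_mul h0, pow_succ']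

/-- the tail of the irreducible bridges is at least of the order 1 / UU -/
theorem KK_low : ∃ C : ℝ, 1 ≤ C ∧ ∀ m : ℕ, ((m : ℝ) + 1) ^ (-(3 / 4 : ℝ)) / C ≤ KK' (m + 1) := by
  obtain ⟨C, hC, c, _, h, _⟩ := cut_levels_of (by
    obtain ⟨C, hC, h⟩ := Pool.Agent.EXL.bridge_exponent
    refine ⟨C, hC, fun T hT => ?_⟩
    have h1 := h T hT
    have e : (-(1 / 4) : ℝ) = -(1 / 4 : ℝ) := by norm_num
    exact h1)
  refine ⟨C, hC, fun m => ?_⟩
  have h1 := (h (m + 1) (by omega)).1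
  push_cast at h1
  exact h1

/-- UU is at least of the order m ^ (3/4) -/
theorem UU_low : ∃ C : ℝ, 1 ≤ C ∧ ∀ m : ℕ, ((m : ℝ) + 1) ^ (3 / 4 : ℝ) ≤ C * UU m := by
  obtain ⟨C, hC, h⟩ := Pool.Agent.EXL.bridge_exponent
  refine ⟨max C 1, le_max_right _ _, fun m => ?_⟩
  have hC1 : (1 : ℝ) ≤ max C 1 := le_max_right _ _
  rcases Nat.eq_zero_or_pos m with rfl | hm
  · have h1 : UU 0 = 1 := by
      unfold UU
      rw [Finset.sum_range_one, uu_zero]
    rw [h1]
    simp
  · have h1 := (h m hm).1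
    rw [← uu_eq hm] at h1
    have hm' : (0 : ℝ) < m := by exact_mod_cast hm
    have h2 : ((m : ℝ) + 1) * uu m ≤ UU m := by
      have h3 : ∑ t ∈ Finset.range (m + 1), uu m ≤ UU m := by
        unfold UU
        apply Finset.sum_le_sum
        intro t ht
        exact uu_anti (by have := Finset.mem_range.1 ht; omega)
      rw [Finset.sum_const, Finset.card_range, nsmul_eq_mul] at h3
      push_cast at h3
      exact h3
    have h3 : (m : ℝ) ^ (-(1 / 4) : ℝ) ≤ C * uu m := by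
      rw [div_le_iff₀ hC] at h1
      linarith
    have h4 : ((m : ℝ) + 1) ^ (-(1 / 4) : ℝ) ≤ (m : ℝ) ^ (-(1 / 4) : ℝ) :=
      Real.rpow_le_rpow_of_nonpos hm' (by linarith) (by norm_num)
    have h5 : ((m : ℝ) + 1) ^ (3 / 4 : ℝ) = ((m : ℝ) + 1) * ((m : ℝ) + 1) ^ (-(1 / 4) : ℝ) := by
      have e : (3 / 4 : ℝ) = 1 + (-(1 / 4) : ℝ) := by norm_num
      rw [e, Real.rpow_add (by positivity), Real.rpow_one]
    rw [h5]
    have hu := uu_pos m
    calc ((m : ℝ) + 1) * ((m : ℝ) + 1) ^ (-(1 / 4) : ℝ) ≤ ((m : ℝ) + 1) * (C * uu m) :=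
          mul_le_mul_of_nonneg_left (h4.trans h3) (by positivity)
      _ = C * (((m : ℝ) + 1) * uu m) := by ring
      _ ≤ max C 1 * (((m : ℝ) + 1) * uu m) := mul_le_mul_of_nonneg_right (le_max_left _ _) (by positivity)
      _ ≤ max C 1 * UU m := mul_le_mul_of_nonneg_left h2 (by positivity)

end BAR

end HexObs
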