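import Pool.Agent.BAR1.Join
import Pool.Agent.BAR1.KLow

/-!
BAR1, main result: the square of the weight of the half plane walks of height at most m is at most a constant times
m ^ (3/4) times the weight of all the walks with an extent of at most 2 m + 1 rows (TARGET-C, section 1 of nu34/82).
-/

set_option autoImplicit false

namespace HexObs

open Complex Finset ENNReal

namespace BAR

lemma VE_le (m : ℕ) : gf (VE m) ≤ gf (VEs m 1) + gf (VEs m (-1)) := by
  refine (gf_mono ?_).trans (gf_union_le _ _)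
  rintro w ⟨h1, s, x, hw, hv⟩
  rcases hv with hv | hv
  · left
    exact ⟨h1, s, x, hw, by rw [hv, one_smul]⟩
  · right
    exact ⟨h1, s, x, hw, by rw [hv, neg_smul, one_smul]⟩

/-- most half plane words have few cuts -/
theorem HH_le_FW {C : ℝ} (hC : 1 ≤ C) (m : ℕ) (hK : ((m : ℝ) + 1) ^ (-(3 / 4 : ℝ)) / C ≤ KK' (m + 1)) {K : ℕ}
    (h : C * ((m : ℝ) + 1) ^ (3 / 4 : ℝ) ≤ K + 1) : HH m ≤ 2 * gf (FW m K) := by
  have hm : (0 : ℝ) < (m : ℝ) + 1 := by positivity
  have hfin : HH m ≠ ∞ := PLW.gf_SSt_fin m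
  have hF : gf (FW m K) ≠ ∞ := ne_top_of_le_ne_top hfin (gf_mono fun w hw => hw.1)
  have hsub : SSt m ⊆ FW m K ∪ MC m (K + 1) := by
    intro w hw
    rcases Nat.lt_or_ge K (cuts w).card with h1 | h1
    · exact Or.inr (mem_MC (K + 1) hw h1)
    · exact Or.inl ⟨hw, h1⟩
  have h1 : HH m ≤ gf (FW m K) + ENNReal.ofReal ((1 - KK' (m + 1)) ^ (K + 1)) * HH m :=
    (gf_mono hsub).trans ((gf_union_le _ _).trans (add_le_add le_rfl (gf_MC m (K + 1))))
  have hk0 : 0 ≤ 1 - KK' (m + 1) := by linarith [KK_le_one (m + 1)]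
  have h2 : (1 - KK' (m + 1)) ^ (K + 1) ≤ 1 / 2 := by
    have e1 : 1 - KK' (m + 1) ≤ Real.exp (-(KK' (m + 1))) := by
      have := Real.add_one_le_exp (-(KK' (m + 1)))
      linarith
    have e2 : 1 ≤ KK' (m + 1) * ((K + 1 : ℕ) : ℝ) := by
      have e3 : ((m : ℝ) + 1) ^ (-(3 / 4 : ℝ)) / C * (C * ((m : ℝ) + 1) ^ (3 / 4 : ℝ)) = 1 := by
        rw [Real.rpow_neg hm.le]
        field_simp
      rw [← e3]
      refine mul_le_mul hK ?_ (by positivity) (KK_nonneg _)
      push_cast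
      exact h
    calc (1 - KK' (m + 1)) ^ (K + 1) ≤ (Real.exp (-(KK' (m + 1)))) ^ (K + 1) := pow_le_pow_left₀ hk0 e1 _
      _ = Real.exp (-(KK' (m + 1) * ((K + 1 : ℕ) : ℝ))) := by
          rw [← Real.exp_nat_mul]
          congr 1
          ring
      _ ≤ Real.exp (-1) := Real.exp_le_exp.2 (by linarith)
      _ ≤ 1 / 2 := by
          rw [Real.exp_neg, one_div]
          apply inv_anti₀ (by norm_num)
          have := Real.add_one_le_exp (1 : ℝ)
          linarith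
  obtain ⟨a, ha⟩ : ∃ a : ℝ, a = (HH m).toReal := ⟨_, rfl⟩
  obtain ⟨b, hb⟩ : ∃ b : ℝ, b = (gf (FW m K)).toReal := ⟨_, rfl⟩
  have ha0 : 0 ≤ a := by rw [ha]; exact ENNReal.toReal_nonneg
  have hb0 : 0 ≤ b := by rw [hb]; exact ENNReal.toReal_nonneg
  have ea : HH m = ENNReal.ofReal a := by rw [ha, ENNReal.ofReal_toReal hfin]
  have eb : gf (FW m K) = ENNReal.ofReal b := by rw [hb, ENNReal.ofReal_toReal hF]
  rw [ea, eb, ← ENNReal.ofReal_mul (by positivity), ← ENNReal.ofReal_add hb0 (by positivity),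
    ENNReal.ofReal_le_ofReal_iff (by positivity)] at h1
  have e2 : (2 : ℝ≥0∞) = ENNReal.ofReal 2 := by norm_num
  rw [ea, eb, e2, ← ENNReal.ofReal_mul (by norm_num)]
  apply ENNReal.ofReal_le_ofReal
  nlinarith

lemma one_le_Chi (m : ℕ) : 1 ≤ Chi m := by
  have h1 : gf {([] : List Bool)} ≤ Chi m := by
    apply gf_mono
    rintro t rfl
    refine ⟨⟨fun i _ _ => Set.mem_univ _, ?_⟩, 0, ?_⟩
    · intro i k hik hk
      rw [List.length_nil] at hk
      omega
    · intro i h1 h2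
      rw [List.length_nil] at h2
      omega
  have h2 : gf {([] : List Bool)} = 1 := by
    unfold gf
    rw [tsum_singleton (f := wE)]
    unfold wE
    simp
  rwa [h2] at h1

lemma HH_zero : HH 0 = 1 := by
  have h1 : SSt 0 = {[]} := by
    ext t
    constructor
    · intro ht
      rcases Nat.eq_zero_or_pos t.length with h0 | h0
      · exact List.length_eq_zero_iff.1 h0
      · have := (mem_SSt.1 ht).1 1 le_rfl h0
        have h2 := this.1
        have h3 := this.2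
        push_cast at h3
        omega
    · rintro rfl
      rw [mem_SSt]
      refine ⟨fun i h1 h2 => ?_, fun i k h1 h2 => ?_⟩
      · rw [List.length_nil] at h2
        omega
      · rw [List.length_nil] at h2
        omega
  unfold HH
  rw [h1]
  unfold gf
  rw [tsum_singleton (f := wE)]
  unfold wE
  simp

/-- **half plane walks and all walks, lower bound**, with the power -/
theorem HH_sq_le : ∃ C : ℝ, 0 < C ∧ ∀ m : ℕ,
    HH m ^ 2 ≤ ENNReal.ofReal (C * ((m : ℝ) + 1) ^ (3 / 4 : ℝ)) * Chi (2 * m + 1) := by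
  obtain ⟨C, hC, hKK⟩ := KK_low
  have hx0 : 0 ≤ xc := by linarith [xc_ge]
  refine ⟨48 * C, by linarith, fun m => ?_⟩
  have hm : (0 : ℝ) < (m : ℝ) + 1 := by positivity
  have hm1 : (1 : ℝ) ≤ ((m : ℝ) + 1) ^ (3 / 4 : ℝ) := by
    apply Real.one_le_rpow _ (by norm_num)
    have := Nat.cast_nonneg (α := ℝ) m
    linarith
  have hCm : 1 ≤ C * ((m : ℝ) + 1) ^ (3 / 4 : ℝ) := by nlinarith
  rcases Nat.eq_zero_or_pos m with h0 | h0
  · rw [h0, HH_zero, one_pow, mul_zero, zero_add]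
    have h1 : (1 : ℝ≥0∞) ≤ ENNReal.ofReal (48 * C * (((0 : ℕ) : ℝ) + 1) ^ (3 / 4 : ℝ)) := by
      rw [← ENNReal.ofReal_one]
      apply ENNReal.ofReal_le_ofReal
      rw [h0] at hCm
      linarith
    calc (1 : ℝ≥0∞) = 1 * 1 := (one_mul 1).symm
      _ ≤ _ := mul_le_mul' h1 (one_le_Chi 1)
  · obtain ⟨K, hK⟩ : ∃ K : ℕ, K = ⌊C * ((m : ℝ) + 1) ^ (3 / 4 : ℝ)⌋₊ := ⟨_, rfl⟩
    have hK1 : C * ((m : ℝ) + 1) ^ (3 / 4 : ℝ) ≤ K + 1 := by
      rw [hK]
      exact (Nat.lt_floor_add_one _).le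
    have hK2 : (K : ℝ) ≤ C * ((m : ℝ) + 1) ^ (3 / 4 : ℝ) := by
      rw [hK]
      exact Nat.floor_le (by linarith)
    have h1 := HH_le_FW hC m (hKK m) hK1
    have h2 : HH m ≤ 5 * (gf (VEs m 1) + gf (VEs m (-1))) :=
      (HH_le_VE h0).trans (mul_le_mul_right (VE_le m) _)
    have h3 := join_le m K (σ := 1) (Or.inl rfl)
    have h4 := join_le m K (σ := -1) (Or.inr rfl)
    calc HH m ^ 2 = HH m * HH m := sq _
      _ ≤ (5 * (gf (VEs m 1) + gf (VEs m (-1)))) * (2 * gf (FW m K)) := mul_le_mul' h2 h1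
      _ = 10 * (gf (VEs m 1) * gf (FW m K) + gf (VEs m (-1)) * gf (FW m K)) := by
          ring
      _ ≤ 10 * (ENNReal.ofReal (2 * xc * (K + 1)) * Chi (2 * m + 1) +
            ENNReal.ofReal (2 * xc * (K + 1)) * Chi (2 * m + 1)) := mul_le_mul_right (add_le_add h3 h4) _
      _ = ENNReal.ofReal (40 * xc * (K + 1)) * Chi (2 * m + 1) := by
          have e10 : (10 : ℝ≥0∞) = ENNReal.ofReal 10 := by norm_num
          rw [← add_mul, ← ENNReal.ofReal_add (by positivity) (by positivity), e10, ← mul_assoc,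
            ← ENNReal.ofReal_mul (by norm_num)]
          congr 2
          ring
      _ ≤ ENNReal.ofReal (48 * C * ((m : ℝ) + 1) ^ (3 / 4 : ℝ)) * Chi (2 * m + 1) := by
          refine mul_le_mul_left (ENNReal.ofReal_le_ofReal ?_) _
          have h5 := xc_le
          have h6 : (K : ℝ) + 1 ≤ 2 * (C * ((m : ℝ) + 1) ^ (3 / 4 : ℝ)) := by linarith
          have h7 : (0 : ℝ) ≤ (K : ℝ) + 1 := by positivity
          nlinarith

/-- **half plane walks and all walks, lower bound**, with the sum UU of the bridge weights -/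
theorem HH_sq_le_UU : ∃ C : ℝ, 0 < C ∧ ∀ m : ℕ,
    HH m ^ 2 ≤ ENNReal.ofReal (C * UU m) * Chi (2 * m + 1) := by
  obtain ⟨C, hC, h⟩ := HH_sq_le
  obtain ⟨D, hD, h'⟩ := UU_low
  refine ⟨C * D, by positivity, fun m => (h m).trans (mul_le_mul_left (ENNReal.ofReal_le_ofReal ?_) _)⟩
  rw [mul_assoc]
  exact mul_le_mul_of_nonneg_left (h' m) hC.le

end BAR

end HexObs
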