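import Pool.Agent.BAR1.Base

/-!
BAR1, part 2: half plane words with a vertical last edge.
-/

set_option autoImplicit false

namespace HexObs

open Complex Finset ENNReal

namespace BAR

/-- the direction is vertical -/
def Vd (d : Pt) : Prop := d = up ∨ d = -up

instance (d : Pt) : Decidable (Vd d) := by
  unfold Vd
  infer_instance

/-- half plane words of height at most m with a vertical last edge -/
def VE (m : ℕ) : Set (List Bool) := {w | w ∈ SSt m ∧ ∃ s x, w = s ++ [x] ∧ Vd (dx up s s.length)}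

/-- half plane words of height at most m with a last edge that is not vertical -/
def NE (m : ℕ) : Set (List Bool) := {w | w ∈ SSt m ∧ ∃ s x, w = s ++ [x] ∧ ¬ Vd (dx up s s.length)}

lemma SSt_pref {m : ℕ} {a c : List Bool} (h : a ++ c ∈ SSt m) : a ∈ SSt m := by
  rw [mem_SSt] at h ⊢
  rw [List.length_append] at h
  refine ⟨fun i h1 h2 => ?_, fun i k h1 h2 => ?_⟩
  · have := h.1 i h1 (by omega)
    rwa [lev_append (by omega)] at this
  · have := h.2 i k h1 (by omega)
    rwa [vx_append (by omega), vx_append (by omega)] at this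

lemma SSt_last {m : ℕ} {a : List Bool} {c : Bool} (c' : Bool) (h : a ++ [c] ∈ SSt m) : a ++ [c'] ∈ SSt m := by
  rw [mem_SSt] at h ⊢
  rw [List.length_append, List.length_singleton] at h ⊢
  refine ⟨fun i h1 h2 => ?_, fun i k h1 h2 => ?_⟩
  · have := h.1 i h1 h2
    rw [lev_append h2] at this ⊢
    exact this
  · have := h.2 i k h1 h2
    rw [vx_append (by omega), vx_append h2] at this ⊢
    exact this

lemma turn_vd : ∀ d ∈ dirs, ¬ Vd d → ∀ b : Bool, Vd (turn b d) ∨ Vd (turn (!b) d) := by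
  decide

lemma xc_le : xc ≤ 3 / 5 := by
  have h1 : xc = 1 / (2 * Real.cos (Real.pi / 8)) := rfl
  have h2 : Real.cos (Real.pi / 6) ≤ Real.cos (Real.pi / 8) :=
    Real.cos_le_cos_of_nonneg_of_le_pi (by positivity) (by linarith [Real.pi_pos]) (by linarith [Real.pi_pos])
  rw [Real.cos_pi_div_six] at h2
  have h3 : (1.7 : ℝ) ≤ Real.sqrt 3 := Real.le_sqrt_of_sq_le (by norm_num)
  rw [h1, div_le_div_iff₀ (by linarith) (by norm_num)]
  linarith

lemma xc_ge : 1 / 2 ≤ xc := by
  have h1 : xc = 1 / (2 * Real.cos (Real.pi / 8)) := rfl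
  have h2 : Real.cos (Real.pi / 8) ≤ 1 := Real.cos_le_one _
  have h3 : 0 < Real.cos (Real.pi / 8) := cos_pos
  rw [h1]
  apply one_div_le_one_div_of_le (by positivity)
  linarith

/-- the word without the last but one letter -/
def cutE (w : List Bool) : List Bool := w.dropLast.dropLast ++ [w.getLastD true]

lemma cutE_eq (s : List Bool) (y x : Bool) : cutE (s ++ [y] ++ [x]) = s ++ [x] := by
  unfold cutE
  simp

lemma wE_cutE (s : List Bool) (y x : Bool) :
    wE (s ++ [y] ++ [x]) = ENNReal.ofReal xc * wE (cutE (s ++ [y] ++ [x])) := by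
  rw [cutE_eq, wE_append, wE_append, wE_append]
  unfold wE
  simp only [List.length_singleton, pow_one]
  ring

lemma NE_form {m : ℕ} {w : List Bool} (hw : w ∈ NE m) : ∃ s y x, w = s ++ [y] ++ [x] ∧ s ++ [x] ∈ SSt m ∧
    ¬ Vd (turn y (dx up s s.length)) := by
  obtain ⟨h1, s, x, rfl, h2⟩ := hw
  rcases List.eq_nil_or_concat s with rfl | ⟨s', y, rfl⟩
  · exact absurd (Or.inl rfl) h2
  · rw [List.concat_eq_append] at h1 h2 ⊢
    refine ⟨s', y, x, rfl, SSt_last x (SSt_pref h1), ?_⟩
    intro h3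
    apply h2
    have e : dx up (s' ++ [y]) (s' ++ [y]).length = turn y (dx up s' s'.length) := by
      rw [List.length_append, List.length_singleton, dx_succ, dx_append le_rfl]
      congr 1
      have := tf_append_right (t := s') (s := [y]) 0
      rw [Nat.add_zero] at this
      rw [this]
      rfl
    rw [e]
    exact h3

theorem NE_le (m : ℕ) : gf (NE m) ≤ 3 * gf (VE m) := by
  classical
  have hG : gf (NE m) ≠ ∞ := ne_top_of_le_ne_top (PLW.gf_SSt_fin m) (gf_mono fun w hw => hw.1)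
  have hV : gf (VE m) ≠ ∞ := ne_top_of_le_ne_top (PLW.gf_SSt_fin m) (gf_mono fun w hw => hw.1)
  have hx0 : 0 ≤ xc := by linarith [xc_ge]
  -- the two kinds of words
  have hsub : NE m ⊆ ({w | ∃ s x, w = s ++ [true] ++ [x] ∧ s ++ [x] ∈ VE m} ∪
      {w | ∃ s x, w = s ++ [false] ++ [x] ∧ s ++ [x] ∈ VE m}) ∪
      {w | ∃ s y x, w = s ++ [y] ++ [x] ∧ s ++ [x] ∈ NE m ∧ ¬ Vd (dx up s s.length) ∧
        ¬ Vd (turn y (dx up s s.length))} := by
    intro w hw
    obtain ⟨s, y, x, rfl, h1, h2⟩ := NE_form hw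
    by_cases hv : Vd (dx up s s.length)
    · left
      cases y
      · right
        exact ⟨s, x, rfl, h1, s, x, rfl, hv⟩
      · left
        exact ⟨s, x, rfl, h1, s, x, rfl, hv⟩
    · right
      exact ⟨s, y, x, rfl, ⟨h1, s, x, rfl, hv⟩, hv, h2⟩
  have hA : ∀ b : Bool, gf {w | ∃ s x, w = s ++ [b] ++ [x] ∧ s ++ [x] ∈ VE m} ≤ ENNReal.ofReal xc * gf (VE m) := by
    intro b
    refine gf_le_of_inj cutE ?_ ?_ _ ?_
    · rintro w ⟨s, x, rfl, h⟩
      rw [cutE_eq]
      exact h
    · rintro w ⟨s, x, rfl, h⟩ w' ⟨s', x', rfl, h'⟩ he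
      rw [cutE_eq, cutE_eq] at he
      obtain ⟨h3, h4⟩ := List.append_inj' he rfl
      rw [h3, h4]
    · rintro w ⟨s, x, rfl, h⟩
      exact le_of_eq (wE_cutE s b x)
  have hB : gf {w | ∃ s y x, w = s ++ [y] ++ [x] ∧ s ++ [x] ∈ NE m ∧ ¬ Vd (dx up s s.length) ∧
        ¬ Vd (turn y (dx up s s.length))} ≤ ENNReal.ofReal xc * gf (NE m) := by
    refine gf_le_of_inj cutE ?_ ?_ _ ?_
    · rintro w ⟨s, y, x, rfl, h, _, _⟩
      rw [cutE_eq]
      exact h
    · rintro w ⟨s, y, x, rfl, h, h1, h2⟩ w' ⟨s', y', x', rfl, h', h1', h2'⟩ he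
      rw [cutE_eq, cutE_eq] at he
      obtain ⟨h3, h4⟩ := List.append_inj' he rfl
      subst h3
      have h5 : y = y' := by
        by_contra hne
        have h6 : y' = !y := by
          revert hne
          cases y <;> cases y' <;> decide
        rw [h6] at h2'
        rcases turn_vd _ (dx_mem upd s s.length) h1 y with h7 | h7
        · exact h2 h7
        · exact h2' h7
      rw [h4, h5]
    · rintro w ⟨s, y, x, rfl, h, _, _⟩
      exact le_of_eq (wE_cutE s y x)
  have h1 : gf (NE m) ≤ (ENNReal.ofReal xc * gf (VE m) + ENNReal.ofReal xc * gf (VE m)) +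
      ENNReal.ofReal xc * gf (NE m) :=
    (gf_mono hsub).trans ((gf_union_le _ _).trans (add_le_add ((gf_union_le _ _).trans
      (add_le_add (hA true) (hA false))) hB))
  -- real numbers
  obtain ⟨G, hGe⟩ : ∃ G : ℝ, G = (gf (NE m)).toReal := ⟨_, rfl⟩
  obtain ⟨V, hVe⟩ : ∃ V : ℝ, V = (gf (VE m)).toReal := ⟨_, rfl⟩
  have hG0 : 0 ≤ G := by rw [hGe]; exact ENNReal.toReal_nonneg
  have hV0 : 0 ≤ V := by rw [hVe]; exact ENNReal.toReal_nonneg
  have eG : gf (NE m) = ENNReal.ofReal G := by rw [hGe, ENNReal.ofReal_toReal hG]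
  have eV : gf (VE m) = ENNReal.ofReal V := by rw [hVe, ENNReal.ofReal_toReal hV]
  rw [eG, eV, ← ENNReal.ofReal_mul hx0, ← ENNReal.ofReal_mul hx0, ← ENNReal.ofReal_add (by positivity) (by positivity),
    ← ENNReal.ofReal_add (by positivity) (by positivity), ENNReal.ofReal_le_ofReal_iff (by positivity)] at h1
  have e3 : (3 : ℝ≥0∞) = ENNReal.ofReal 3 := by norm_num
  rw [eG, eV, e3, ← ENNReal.ofReal_mul (by norm_num)]
  apply ENNReal.ofReal_le_ofReal
  have h2 := xc_le
  nlinarith

lemma one_mem_VE {m : ℕ} (hm : 1 ≤ m) (b : Bool) : [b] ∈ VE m := by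
  refine ⟨?_, [], b, rfl, Or.inl rfl⟩
  rw [mem_SSt]
  constructor
  · intro i h1 h2
    have hi : i = 1 := by
      rw [List.length_singleton] at h2
      omega
    subst hi
    rw [lev_one]
    omega
  · intro i k hik hk heq
    rw [List.length_singleton] at hk
    have hi : i = 0 := by omega
    have hk1 : k = 1 := by omega
    subst hi hk1
    have h3 : lev [b] 0 = lev [b] 1 := by
      unfold lev
      rw [heq]
    rw [lev_zero, lev_one] at h3
    omega

theorem HH_le_VE {m : ℕ} (hm : 1 ≤ m) : HH m ≤ 5 * gf (VE m) := by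
  have hsub : SSt m ⊆ ({[]} ∪ VE m) ∪ NE m := by
    intro w hw
    rcases List.eq_nil_or_concat w with rfl | ⟨s, x, rfl⟩
    · exact Or.inl (Or.inl rfl)
    · rw [List.concat_eq_append] at hw ⊢
      by_cases hv : Vd (dx up s s.length)
      · exact Or.inl (Or.inr ⟨hw, s, x, rfl, hv⟩)
      · exact Or.inr ⟨hw, s, x, rfl, hv⟩
  have h0 : gf {([] : List Bool)} = 1 := by
    unfold gf
    rw [tsum_singleton (f := wE)]
    unfold wE
    simp
  have h1 : (1 : ℝ≥0∞) ≤ gf (VE m) := by
    have h2 : gf {[true]} + gf {[false]} = gf ({[true]} ∪ {[false]}) := (gf_union (by simp)).symm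
    have h3 : gf ({[true]} ∪ {[false]}) ≤ gf (VE m) := by
      apply gf_mono
      rintro w (h | h)
      · rw [Set.mem_singleton_iff] at h
        rw [h]
        exact one_mem_VE hm true
      · rw [Set.mem_singleton_iff] at h
        rw [h]
        exact one_mem_VE hm false
    have h4 : ∀ b : Bool, gf {[b]} = ENNReal.ofReal xc := by
      intro b
      unfold gf
      rw [tsum_singleton (f := wE)]
      unfold wE
      simp
    rw [← h2, h4, h4] at h3
    refine le_trans ?_ h3
    have hx0 : 0 ≤ xc := by linarith [xc_ge]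
    rw [← ENNReal.ofReal_add hx0 hx0, ← ENNReal.ofReal_one]
    apply ENNReal.ofReal_le_ofReal
    linarith [xc_ge]
  calc HH m ≤ gf (({[]} ∪ VE m) ∪ NE m) := gf_mono hsub
    _ ≤ (gf {([] : List Bool)} + gf (VE m)) + gf (NE m) :=
        (gf_union_le _ _).trans (add_le_add (gf_union_le _ _) le_rfl)
    _ ≤ (gf (VE m) + gf (VE m)) + 3 * gf (VE m) := by
        rw [h0]
        exact add_le_add (add_le_add h1 le_rfl) (NE_le m)
    _ = 5 * gf (VE m) := by ring

end BAR

end HexObs
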