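import Pool.Agent.BAR.Defs
import Pool.Agent.PLW.Strip
import Pool.Agent.PHW.Rotate

/-!
BAR1, part 1: beginnings and ends of words, cut positions of a word.
-/

set_option autoImplicit false

namespace HexObs

open Complex Finset ENNReal

namespace BAR

/-! ### 1. Beginnings and ends of words -/

lemma vx_take {w : List Bool} {j i : ℕ} (hj : j ≤ w.length) (hi : i ≤ j + 1) :
    vx oo up (w.take j) i = vx oo up w i := by
  have h1 : (w.take j).length = j := by
    rw [List.length_take]
    omega
  have h2 := vx_append (v0 := oo) (d0 := up) (t := w.take j) (s := w.drop j) (i := i) (by omega)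
  rw [List.take_append_drop] at h2
  exact h2.symm

lemma dx_take {w : List Bool} {j i : ℕ} (hj : j ≤ w.length) (hi : i ≤ j) :
    dx up (w.take j) i = dx up w i := by
  have h1 : (w.take j).length = j := by
    rw [List.length_take]
    omega
  have h2 := dx_append (d0 := up) (t := w.take j) (s := w.drop j) (i := i) (by omega)
  rw [List.take_append_drop] at h2
  exact h2.symm

lemma lev_take {w : List Bool} {j i : ℕ} (hj : j ≤ w.length) (hi : i ≤ j + 1) :
    lev (w.take j) i = lev w i := by
  unfold lev
  rw [vx_take hj hi]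

lemma vx_drop {w : List Bool} {j : ℕ} (hd : dx up w j = up) (i : ℕ) :
    vx oo up w (j + i) = vx oo up w j + vx oo up (w.drop j) i := by
  rw [lowA_drop oo up w j i, hd, ← lowA_trans]
  congr 1
  exact (add_zero _).symm

lemma dx_drop' (d : Pt) (w : List Bool) (j i : ℕ) :
    dx d w (j + i) = dx (dx d w j) (w.drop j) i := by
  unfold dx
  rw [ds_shift]
  apply ds_congr
  intro k _
  unfold tf
  simp only [List.getD_eq_getElem?_getD, List.getElem?_drop]

lemma dx_drop {w : List Bool} {j : ℕ} (hd : dx up w j = up) (i : ℕ) :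
    dx up w (j + i) = dx up (w.drop j) i := by
  rw [dx_drop', hd]

lemma lev_drop {w : List Bool} {j : ℕ} (hd : dx up w j = up) (i : ℕ) :
    lev w (j + i) = lev w j + lev (w.drop j) i := by
  unfold lev
  rw [vx_drop hd, ip_add_left]

theorem mem_SSt {m : ℕ} {t : List Bool} : t ∈ SSt m ↔
    (∀ i, 1 ≤ i → i ≤ t.length → 0 < lev t i ∧ lev t i ≤ 3 * m) ∧
    (∀ i k, i < k → k ≤ t.length → vx oo up t i ≠ vx oo up t k) := by
  constructor
  · intro ht
    refine ⟨fun i h1 h2 => ?_, ht.inj⟩
    have h3 := mem_St.1 (ht.mem i h1 h2)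
    have h4 := lev_mod t i
    refine ⟨h3.1, ?_⟩
    split_ifs at h4 <;> omega
  · rintro ⟨h1, h2⟩
    refine ⟨fun i h3 h4 => mem_St.2 ?_, h2⟩
    have := h1 i h3 h4
    exact ⟨this.1, by omega⟩

/-! ### 2. Cut positions -/

/-- j is a cut position of the word w: the walk goes up there, everything before is at most so high, everything
after is higher -/
def CutP (w : List Bool) (j : ℕ) : Prop :=
  1 ≤ j ∧ j ≤ w.length ∧ dx up w j = up ∧ (∀ i, i ≤ j → lev w i ≤ lev w j) ∧
    (∀ i, j < i → i ≤ w.length → lev w j < lev w i)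

open Classical in
/-- the set of the cut positions -/
noncomputable def cuts (w : List Bool) : Finset ℕ := (Finset.range (w.length + 1)).filter (fun j => CutP w j)

lemma mem_cuts {w : List Bool} {j : ℕ} : j ∈ cuts w ↔ CutP w j := by
  classical
  unfold cuts
  rw [Finset.mem_filter, Finset.mem_range]
  exact ⟨fun h => h.2, fun h => ⟨by have := h.2.1; omega, h⟩⟩

theorem CutP_take {m : ℕ} {w : List Bool} (hw : w ∈ SSt m) {j : ℕ} (hj : CutP w j) :
    ∃ h : ℕ, 1 ≤ h ∧ h ≤ m ∧ lev w j = 3 * h ∧ w.take j ∈ Brd h := by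
  obtain ⟨h1, h2, h3, h4, h5⟩ := hj
  obtain ⟨w1, w2⟩ := mem_SSt.1 hw
  have he : Even j := even_of_up upd h3
  have h6 := lev_mod w j
  rw [if_pos he] at h6
  obtain ⟨c, hc⟩ := h6
  have h7 := w1 j h1 h2
  have hlen : (w.take j).length = j := by
    rw [List.length_take]
    omega
  refine ⟨c.toNat, by omega, by omega, by omega, ?_⟩
  rw [mem_Brd, hlen]
  refine ⟨?_, ?_, ?_, ?_⟩
  · intro i hi hij
    rw [lev_take h2 (by omega)]
    have := h4 i hij
    exact ⟨(w1 i hi (by omega)).1, by omega⟩
  · intro i k hik hk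
    rw [vx_take h2 (by omega), vx_take h2 (by omega)]
    exact w2 i k hik (by omega)
  · rw [dx_take h2 le_rfl, h3]
  · rw [lev_take h2 (by omega)]
    omega

theorem drop_SSt {m : ℕ} {w : List Bool} (hw : w ∈ SSt m) {j : ℕ} (hj : j ≤ w.length) (hd : dx up w j = up)
    (h0 : 0 ≤ lev w j) (h : ∀ i, j < i → i ≤ w.length → lev w j < lev w i) : w.drop j ∈ SSt m := by
  obtain ⟨w1, w2⟩ := mem_SSt.1 hw
  rw [mem_SSt]
  have hl : (w.drop j).length = w.length - j := List.length_drop
  rw [hl]
  refine ⟨fun i hi hij => ?_, fun i k hik hk heq => ?_⟩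
  · have h3 := lev_drop hd i
    have h4 := h (j + i) (by omega) (by omega)
    have h5 := (w1 (j + i) (by omega) (by omega)).2
    omega
  · apply w2 (j + i) (j + k) (by omega) (by omega)
    rw [vx_drop hd, vx_drop hd, heq]

theorem CutP_drop {m : ℕ} {w : List Bool} (hw : w ∈ SSt m) {j : ℕ} (hj : CutP w j) : w.drop j ∈ SSt m := by
  obtain ⟨h1, h2, h3, h4, h5⟩ := hj
  exact drop_SSt hw h2 h3 (by have := ((mem_SSt.1 hw).1 j h1 h2).1; omega) h5

theorem CutP_shift {w : List Bool} {j i : ℕ} (hj : CutP w j) (hi : 1 ≤ i) (h : CutP w (j + i)) :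
    CutP (w.drop j) i := by
  obtain ⟨h1, h2, h3, h4, h5⟩ := hj
  obtain ⟨k1, k2, k3, k4, k5⟩ := h
  have hl : (w.drop j).length = w.length - j := List.length_drop
  refine ⟨hi, by omega, ?_, ?_, ?_⟩
  · rw [← dx_drop h3, k3]
  · intro k hk
    have h6 := k4 (j + k) (by omega)
    rw [lev_drop h3, lev_drop h3] at h6
    omega
  · intro k hk hk2
    have h6 := k5 (j + k) (by omega) (by omega)
    rw [lev_drop h3, lev_drop h3] at h6
    omega

/-- the first cut position is the end of an irreducible bridge -/
theorem CutP_first {m : ℕ} {w : List Bool} (hw : w ∈ SSt m) {j : ℕ} (hj : CutP w j)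
    (hmin : ∀ i, CutP w i → j ≤ i) : ∃ h : ℕ, 1 ≤ h ∧ h ≤ m ∧ w.take j ∈ Irr h := by
  obtain ⟨h, hh1, hh2, hh3, hh4⟩ := CutP_take hw hj
  obtain ⟨h1, h2, h3, h4, h5⟩ := hj
  have hlen : (w.take j).length = j := by
    rw [List.length_take]
    omega
  refine ⟨h, hh1, hh2, hh4, ?_, ?_⟩
  · intro hn
    rw [hn] at hlen
    simp at hlen
    omega
  · intro a b s u hs hu hsu
    by_contra hcon
    push Not at hcon
    obtain ⟨c1, c2⟩ := hcon
    have l1 : 0 < s.length := List.length_pos_iff.2 c1
    have l2 : 0 < u.length := List.length_pos_iff.2 c2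
    have hs' := mem_Brd.1 hs
    have hu' := mem_Brd.1 hu
    have hl : s.length + u.length = j := by
      rw [← hlen, hsu, List.length_append]
    have hwl : ∀ i, i ≤ j + 1 → lev w i = lev (s ++ u) i := by
      intro i hi
      rw [← hsu, lev_take h2 hi]
    have hls : lev w s.length = 3 * a := by
      rw [hwl _ (by omega), lev_append (by omega), hs'.2.2.2]
    have hlj : lev w j = 3 * a + 3 * b := by
      have h6 := lev_cat (t := u) hs'.2.2.1 u.length
      rw [hwl _ (by omega), ← hl, h6, hs'.2.2.2, hu'.2.2.2]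
    have hab : (0 : ℤ) ≤ b := by positivity
    have hcut : CutP w s.length := by
      refine ⟨by omega, by omega, ?_, ?_, ?_⟩
      · have h6 : dx up w s.length = dx up (w.take j) s.length := (dx_take h2 (by omega)).symm
        rw [h6, hsu, dx_append le_rfl, hs'.2.2.1]
      · intro i hi
        rw [hls, hwl i (by omega), lev_append (by omega)]
        rcases Nat.eq_zero_or_pos i with h0 | h0
        · rw [h0, lev_zero]
          positivity
        · exact (hs'.1 i h0 hi).2
      · intro i hi hil
        rw [hls]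
        rcases Nat.lt_or_ge j i with hji | hji
        · have := h5 i hji hil
          omega
        · obtain ⟨k, rfl⟩ : ∃ k, i = s.length + k := ⟨i - s.length, by omega⟩
          rw [hwl _ (by omega), lev_cat hs'.2.2.1, hs'.2.2.2]
          have := (hu'.1 k (by omega) (by omega)).1
          omega
    have := hmin _ hcut
    omega

/-! ### 3. Words with many cuts -/

/-- words that start with k irreducible bridges of height at most m -/
def MC (m : ℕ) : ℕ → Set (List Bool)
  | 0 => SSt m
  | k + 1 => {w | ∃ a ∈ ⋃ r ∈ Finset.Icc 1 m, Irr r, ∃ b ∈ MC m k, w = a ++ b}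

theorem mem_MC {m : ℕ} (k : ℕ) {w : List Bool} (hw : w ∈ SSt m) (hk : k ≤ (cuts w).card) : w ∈ MC m k := by
  classical
  induction k generalizing w with
  | zero => exact hw
  | succ k ih =>
    have hne : (cuts w).Nonempty := by
      rw [← Finset.card_pos]
      omega
    obtain ⟨j, hj⟩ : ∃ j, j = (cuts w).min' hne := ⟨_, rfl⟩
    have hjc : CutP w j := by
      rw [← mem_cuts, hj]
      exact Finset.min'_mem _ _
    have hmin : ∀ i, CutP w i → j ≤ i := by
      intro i hi
      rw [hj]
      exact Finset.min'_le _ _ (mem_cuts.2 hi)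
    obtain ⟨h, hh1, hh2, hh3⟩ := CutP_first hw hjc hmin
    refine ⟨w.take j, ?_, w.drop j, ih (CutP_drop hw hjc) ?_, (List.take_append_drop j w).symm⟩
    · rw [Set.mem_iUnion₂]
      exact ⟨h, Finset.mem_Icc.2 ⟨hh1, hh2⟩, hh3⟩
    · have h1 : ((cuts w).erase j).card = (cuts w).card - 1 := Finset.card_erase_of_mem (mem_cuts.2 hjc)
      have h2 : ((cuts w).erase j).card ≤ (cuts (w.drop j)).card := by
        apply Finset.card_le_card_of_injOn (fun i => i - j)
        · intro i hi
          rw [Finset.mem_coe, Finset.mem_erase] at hi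
          have h3 := hmin i (mem_cuts.1 hi.2)
          have h4 : j < i := by
            have := hi.1
            omega
          rw [Finset.mem_coe, mem_cuts]
          refine CutP_shift (i := i - j) hjc (by omega) ?_
          rw [show j + (i - j) = i by omega]
          exact mem_cuts.1 hi.2
        · intro i hi i' hi' he
          rw [Finset.mem_coe, Finset.mem_erase] at hi hi'
          have h3 := hmin i (mem_cuts.1 hi.2)
          have h4 := hmin i' (mem_cuts.1 hi'.2)
          have he' : i - j = i' - j := he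
          omega
      omega

end BAR

end HexObs
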