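import Pool.Agent.BAR1.Vert

/-!
BAR1, part 3: two half plane words joined by a vertical edge.
-/

set_option autoImplicit false

namespace HexObs

open Complex Finset ENNReal

namespace BAR

/-- half plane words of height at most m, the last edge has the direction σ up -/
def VEs (m : ℕ) (σ : ℤ) : Set (List Bool) := {w | w ∈ SSt m ∧ ∃ s x, w = s ++ [x] ∧ dx up s s.length = σ • up}

/-- half plane words of height at most m with at most K cuts -/
def FW (m K : ℕ) : Set (List Bool) := {w | w ∈ SSt m ∧ (cuts w).card ≤ K}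

/-! ### 1. The sign of a vertical direction -/

lemma smul_sq {σ : ℤ} (hσ : σ = 1 ∨ σ = -1) (p : Pt) : σ • (σ • p) = p := by
  rcases hσ with rfl | rfl
  · simp
  · simp

lemma smul_inj {σ : ℤ} (hσ : σ = 1 ∨ σ = -1) {p q : Pt} (h : σ • p = σ • q) : p = q := by
  rw [← smul_sq hσ p, h, smul_sq hσ]

lemma ip_smul (σ : ℤ) (p : Pt) : ip (σ • p) up = σ * ip p up := by
  show ip (σ * p.1, σ * p.2) up = σ * ip p up
  unfold ip up
  ring

lemma vx_sgn {σ : ℤ} (hσ : σ = 1 ∨ σ = -1) (v : Pt) (w : List Bool) (i : ℕ) :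
    vx v (σ • up) w i = v + σ • vx oo up w i := by
  have h0 : vx v (σ • up) w i = v + vx oo (σ • up) w i := by
    rw [← lowA_trans]
    congr 1
    exact (add_zero v).symm
  rw [h0]
  congr 1
  rcases hσ with rfl | rfl
  · simp
  · have h2 := vx_mulE (-1, 0) oo oo up w i
    rw [mulE_neg_one, mulE_neg_one] at h2
    have h3 : vx oo up w i - oo = vx oo up w i := sub_zero _
    have h4 : vx oo (-up) w i - oo = vx oo (-up) w i := sub_zero _
    have e : ((-1 : ℤ) • up : Pt) = -up := by simp
    rw [e]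
    have e2 : ((-1 : ℤ) • vx oo up w i : Pt) = -(vx oo up w i) := by simp
    rw [e2]
    rw [h3] at h2
    rw [h2]
    exact zero_add _

lemma dx_sgn {σ : ℤ} (hσ : σ = 1 ∨ σ = -1) (w : List Bool) (i : ℕ) :
    dx (σ • up) w i = σ • dx up w i := by
  rcases hσ with rfl | rfl
  · simp
  · have h2 := dx_mulE (-1, 0) up w i
    rw [mulE_neg_one, mulE_neg_one] at h2
    have e : ((-1 : ℤ) • up : Pt) = -up := by simp
    have e2 : ((-1 : ℤ) • dx up w i : Pt) = -(dx up w i) := by simp
    rw [e, e2, h2]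

lemma vx_dropS {σ : ℤ} (hσ : σ = 1 ∨ σ = -1) {w : List Bool} {p : ℕ} (hd : dx up w p = σ • up) (i : ℕ) :
    vx oo up w (p + i) = vx oo up w p + σ • vx oo up (w.drop p) i := by
  rw [lowA_drop oo up w p i, hd, vx_sgn hσ]

lemma dx_dropS {σ : ℤ} (hσ : σ = 1 ∨ σ = -1) {w : List Bool} {p : ℕ} (hd : dx up w p = σ • up) (i : ℕ) :
    dx up w (p + i) = σ • dx up (w.drop p) i := by
  rw [dx_drop', hd, dx_sgn hσ]

lemma lev_dropS {σ : ℤ} (hσ : σ = 1 ∨ σ = -1) {w : List Bool} {p : ℕ} (hd : dx up w p = σ • up) (i : ℕ) :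
    lev w (p + i) = lev w p + σ * lev (w.drop p) i := by
  unfold lev
  rw [vx_dropS hσ hd, ip_add_left, ip_smul]

/-- the reversed word in its own frame -/
lemma vx_revS {σ : ℤ} (hσ : σ = 1 ∨ σ = -1) {s : List Bool} (hd : dx up s s.length = σ • up) {i : ℕ}
    (hi : i ≤ s.length + 1) : vx oo up (rev s) i = σ • (tip oo up s - vx oo up s (s.length + 1 - i)) := by
  have h1 := vx_rev oo up s i hi
  have hn : -σ = 1 ∨ -σ = -1 := by
    rcases hσ with rfl | rfl
    · exact Or.inr rfl
    · exact Or.inl (by norm_num)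
  have e : -(dx up s s.length) = (-σ) • up := by
    rw [hd, neg_smul]
  rw [e, vx_sgn hn] at h1
  have h2 : (-σ) • vx oo up (rev s) i = vx oo up s (s.length + 1 - i) - tip oo up s := by
    rw [← h1]
    abel
  have h3 : σ • vx oo up (rev s) i = tip oo up s - vx oo up s (s.length + 1 - i) := by
    rw [neg_smul] at h2
    rw [← neg_neg (σ • vx oo up (rev s) i), h2]
    abel
  rw [← h3, smul_sq hσ]

lemma dx_revS {σ : ℤ} (hσ : σ = 1 ∨ σ = -1) {s : List Bool} (hd : dx up s s.length = σ • up) {i : ℕ}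
    (hi : i ≤ s.length) : dx up (rev s) i = σ • dx up s (s.length - i) := by
  have h1 := dx_rev up s i hi
  have hn : -σ = 1 ∨ -σ = -1 := by
    rcases hσ with rfl | rfl
    · exact Or.inr rfl
    · exact Or.inl (by norm_num)
  have e : -(dx up s s.length) = (-σ) • up := by
    rw [hd, neg_smul]
  rw [e, dx_sgn hn, neg_smul, neg_inj] at h1
  rw [← h1, smul_sq hσ]

/-! ### 2. The joined word -/

/-- the split positions: the walk passes there once through a vertical edge, and the second part has few cuts -/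
def SpP (σ : ℤ) (K : ℕ) (t : List Bool) (p : ℕ) : Prop :=
  p ≤ t.length ∧ dx up t p = σ • up ∧ (∀ i, i ≤ p → σ * lev t i ≤ σ * lev t p) ∧
    (∀ i, p < i → i ≤ t.length → σ * lev t p < σ * lev t i) ∧ (cuts (t.drop p)).card ≤ K

open Classical in
/-- the set of the split positions -/
noncomputable def spl (σ : ℤ) (K : ℕ) (t : List Bool) : Finset ℕ :=
  (Finset.range (t.length + 1)).filter (fun p => SpP σ K t p)

lemma mem_spl {σ : ℤ} {K : ℕ} {t : List Bool} {p : ℕ} : p ∈ spl σ K t ↔ SpP σ K t p := by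
  classical
  unfold spl
  rw [Finset.mem_filter, Finset.mem_range]
  exact ⟨fun h => h.2, fun h => ⟨by have := h.1; omega, h⟩⟩

lemma SpP_cut {σ : ℤ} (hσ : σ = 1 ∨ σ = -1) {K : ℕ} {t : List Bool} {p q : ℕ} (hp : SpP σ K t p)
    (hq : SpP σ K t q) (hpq : p < q) : CutP (t.drop p) (q - p) := by
  obtain ⟨p1, p2, p3, p4, _⟩ := hp
  obtain ⟨q1, q2, q3, q4, _⟩ := hq
  have hl : (t.drop p).length = t.length - p := List.length_drop
  have hss : σ * σ = 1 := by rcases hσ with rfl | rfl <;> norm_num
  have hlev : ∀ i, lev (t.drop p) i = σ * lev t (p + i) - σ * lev t p := by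
    intro i
    rw [lev_dropS hσ p2 i, mul_add, ← mul_assoc, hss]
    ring
  refine ⟨by omega, by omega, ?_, ?_, ?_⟩
  · have h1 := dx_dropS hσ p2 (q - p)
    rw [show p + (q - p) = q by omega, q2] at h1
    exact (smul_inj hσ h1).symm
  · intro i hi
    rw [hlev, hlev, show p + (q - p) = q by omega]
    have := q3 (p + i) (by omega)
    omega
  · intro i hi hil
    rw [hlev, hlev, show p + (q - p) = q by omega]
    have := q4 (p + i) (by omega) (by omega)
    omega

/-- there are few split positions -/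
theorem spl_card {σ : ℤ} (hσ : σ = 1 ∨ σ = -1) (K : ℕ) (t : List Bool) : (spl σ K t).card ≤ K + 1 := by
  classical
  by_cases hne : (spl σ K t).Nonempty
  · obtain ⟨p, hp⟩ : ∃ p, p = (spl σ K t).min' hne := ⟨_, rfl⟩
    have hpm : p ∈ spl σ K t := by
      rw [hp]
      exact Finset.min'_mem _ _
    have hmin : ∀ q ∈ spl σ K t, p ≤ q := by
      intro q hq
      rw [hp]
      exact Finset.min'_le _ _ hq
    have h1 : ((spl σ K t).erase p).card = (spl σ K t).card - 1 := Finset.card_erase_of_mem hpm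
    have h2 : ((spl σ K t).erase p).card ≤ (cuts (t.drop p)).card := by
      apply Finset.card_le_card_of_injOn (fun q => q - p)
      · intro q hq
        rw [Finset.mem_coe, Finset.mem_erase] at hq
        have h3 := hmin q hq.2
        have h4 : p < q := by
          have := hq.1
          omega
        rw [Finset.mem_coe, mem_cuts]
        exact SpP_cut hσ (mem_spl.1 hpm) (mem_spl.1 hq.2) h4
      · intro q hq q' hq' he
        rw [Finset.mem_coe, Finset.mem_erase] at hq hq'
        have h3 := hmin q hq.2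
        have h4 := hmin q' hq'.2
        have he' : q - p = q' - p := he
        omega
    have h3 := (mem_spl.1 hpm).2.2.2.2
    omega
  · rw [Finset.not_nonempty_iff_eq_empty] at hne
    rw [hne]
    simp

lemma tf_last (s : List Bool) (x : Bool) : vx oo up (s ++ [x]) (s.length + 1) = tip oo up s := vx_append le_rfl

/-- the joined word is self-avoiding, has the right extent and the right split position -/
theorem join_mem {m K : ℕ} {σ : ℤ} (hσ : σ = 1 ∨ σ = -1) {s w : List Bool} {x : Bool} (hs : s ++ [x] ∈ SSt m)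
    (hd : dx up s s.length = σ • up) (hw : w ∈ FW m K) :
    (Saw Set.univ oo up (rev s ++ w) ∧ Ext (2 * m + 1) (rev s ++ w)) ∧ SpP σ K (rev s ++ w) s.length := by
  obtain ⟨hw1, hw2⟩ := hw
  obtain ⟨w1, w2⟩ := mem_SSt.1 hw1
  obtain ⟨s1, s2⟩ := mem_SSt.1 hs
  rw [List.length_append, List.length_singleton] at s1 s2
  have hss : σ * σ = 1 := by rcases hσ with rfl | rfl <;> norm_num
  obtain ⟨t, ht⟩ : ∃ t, t = rev s ++ w := ⟨_, rfl⟩
  obtain ⟨p, hp⟩ : ∃ p, p = s.length := ⟨_, rfl⟩
  rw [← ht, ← hp]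
  rw [← hp] at hd s1 s2
  have hlr : (rev s).length = p := by rw [rev_length, hp]
  have hlt : t.length = p + w.length := by rw [ht, List.length_append, hlr]
  have hdr : t.drop p = w := by
    rw [ht, ← hlr]
    exact List.drop_left
  obtain ⟨L, hL⟩ : ∃ L : ℤ, L = ip (tip oo up s) up := ⟨_, rfl⟩
  -- vertices of the first part
  have hv1 : ∀ i, i ≤ p + 1 → vx oo up t i = σ • (tip oo up s - vx oo up (s ++ [x]) (p + 1 - i)) := by
    intro i hi
    rw [ht, vx_append (by omega), vx_revS hσ (by rw [← hp]; exact hd) (by omega), ← hp]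
    congr 2
    exact (vx_append (by omega)).symm
  have hl1 : ∀ i, i ≤ p + 1 → σ * lev t i = L - lev (s ++ [x]) (p + 1 - i) := by
    intro i hi
    unfold lev
    rw [hv1 i hi, ip_smul, ← mul_assoc, hss, one_mul, ip_sub_left, ← hL]
  have hdp : dx up t p = σ • up := by
    rw [ht, dx_append (by omega), dx_revS hσ (by rw [← hp]; exact hd) (by omega), ← hp, Nat.sub_self]
    rfl
  have hlevp : σ * lev t p = L - 2 := by
    rw [hl1 p (by omega), show p + 1 - p = 1 by omega, lev_one]
  have hl2 : ∀ j, σ * lev t (p + j) = L - 2 + lev w j := by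
    intro j
    rw [lev_dropS hσ hdp j, mul_add, ← mul_assoc, hss, hlevp, hdr, one_mul]
  have hv2 : ∀ j, vx oo up t (p + j) = vx oo up t p + σ • vx oo up w j := by
    intro j
    rw [vx_dropS hσ hdp j, hdr]
  have hlow : ∀ i, i ≤ p → L - 3 * m ≤ σ * lev t i ∧ σ * lev t i ≤ L - 2 := by
    intro i hi
    rw [hl1 i (by omega)]
    have h1 := s1 (p + 1 - i) (by omega) (by omega)
    have h2 := lev_mod (s ++ [x]) (p + 1 - i)
    split_ifs at h2 <;> omega
  have hhigh : ∀ i, p < i → i ≤ t.length → L - 2 < σ * lev t i ∧ σ * lev t i ≤ L - 2 + 3 * m := by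
    intro i hi hil
    obtain ⟨j, rfl⟩ : ∃ j, i = p + j := ⟨i - p, by omega⟩
    rw [hl2]
    have h1 := w1 j (by omega) (by omega)
    omega
  refine ⟨⟨⟨fun i _ _ => Set.mem_univ _, ?_⟩, ?_⟩, ?_⟩
  · intro i k hik hk heq
    by_cases h1 : k ≤ p
    · rw [hv1 i (by omega), hv1 k (by omega)] at heq
      have h2 := smul_inj hσ heq
      have h3 : vx oo up (s ++ [x]) (p + 1 - i) = vx oo up (s ++ [x]) (p + 1 - k) := sub_right_injective h2
      exact s2 (p + 1 - k) (p + 1 - i) (by omega) (by omega) h3.symm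
    · by_cases h2 : p ≤ i
      · obtain ⟨j, rfl⟩ : ∃ j, i = p + j := ⟨i - p, by omega⟩
        obtain ⟨l, rfl⟩ : ∃ l, k = p + l := ⟨k - p, by omega⟩
        rw [hv2 j, hv2 l] at heq
        exact w2 j l (by omega) (by omega) (smul_inj hσ (add_left_cancel heq))
      · have h3 := (hlow i (by omega)).2
        have h4 := (hhigh k (by omega) hk).1
        have h5 : lev t i = lev t k := by
          unfold lev
          rw [heq]
        rw [h5] at h3
        omega
  · have hall : ∀ i, i ≤ t.length → L - 3 * m ≤ σ * lev t i ∧ σ * lev t i ≤ L - 2 + 3 * m := by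
      intro i hi
      rcases Nat.lt_or_ge p i with h | h
      · have := hhigh i h hi
        omega
      · have := hlow i h
        omega
    rcases hσ with rfl | rfl
    · refine ⟨(L - 3 * m - 1) / 3, fun i _ hi => ?_⟩
      have := hall i hi
      push_cast
      omega
    · refine ⟨(-(L - 2 + 3 * m) - 1) / 3, fun i _ hi => ?_⟩
      have := hall i hi
      push_cast
      omega
  · refine ⟨by omega, hdp, ?_, ?_, ?_⟩
    · intro i hi
      rw [hlevp]
      exact (hlow i hi).2
    · intro i hi hil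
      rw [hlevp]
      exact (hhigh i hi hil).1
    · rw [hdr]
      exact hw2

lemma wE_join (s w : List Bool) (x : Bool) : wE (s ++ [x]) * wE w = ENNReal.ofReal xc * wE (rev s ++ w) := by
  rw [wE_append, wE_append, wE_rev]
  have h1 : wE [x] = ENNReal.ofReal xc := by
    unfold wE
    simp
  rw [h1]
  ring

/-- pairs of half plane words, with few cuts for the second one -/
theorem join_le (m K : ℕ) {σ : ℤ} (hσ : σ = 1 ∨ σ = -1) :
    gf (VEs m σ) * gf (FW m K) ≤ ENNReal.ofReal (2 * xc * (K + 1)) * Chi (2 * m + 1) := by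
  classical
  have hx0 : 0 ≤ xc := by linarith [xc_ge]
  obtain ⟨S, hS⟩ : ∃ S : Set (List Bool), S = {t | Saw Set.univ oo up t ∧ Ext (2 * m + 1) t} := ⟨_, rfl⟩
  have hchi : Chi (2 * m + 1) = gf S := by rw [hS]; rfl
  let G : Bool × List Bool × ℕ → ℝ≥0∞ := fun q =>
    if q.2.1 ∈ S ∧ q.2.2 ∈ spl σ K q.2.1 then ENNReal.ofReal xc * wE q.2.1 else 0
  have hform : ∀ a : VEs m σ, ∃ s x, a.1 = s ++ [x] ∧ dx up s s.length = σ • up := fun a => a.2.2
  choose f g hfg hdf using hform
  let F : VEs m σ × FW m K → Bool × List Bool × ℕ := fun q => (g q.1, rev (f q.1) ++ q.2.1, (f q.1).length)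
  have hFinj : Function.Injective F := by
    rintro ⟨a, b⟩ ⟨a', b'⟩ h
    have e1 : g a = g a' := congrArg (fun q => q.1) h
    have e2 : rev (f a) ++ b.1 = rev (f a') ++ b'.1 := congrArg (fun q => q.2.1) h
    have e3 : (f a).length = (f a').length := congrArg (fun q => q.2.2) h
    obtain ⟨e4, e5⟩ := List.append_inj e2 (by rw [rev_length, rev_length, e3])
    have e6 : f a = f a' := by rw [← rev_rev (f a), e4, rev_rev]
    refine Prod.ext (Subtype.ext ?_) (Subtype.ext e5)
    show a.1 = a'.1
    rw [hfg a, hfg a', e6, e1]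
  have hval : ∀ q : VEs m σ × FW m K, wE q.1.1 * wE q.2.1 = G (F q) := by
    rintro ⟨a, b⟩
    have h1 := join_mem (K := K) (x := g a) hσ (by rw [← hfg a]; exact a.2.1) (hdf a) b.2
    have h2 : (rev (f a) ++ b.1) ∈ S ∧ (f a).length ∈ spl σ K (rev (f a) ++ b.1) := by
      refine ⟨?_, mem_spl.2 h1.2⟩
      rw [hS]
      exact h1.1
    show wE a.1 * wE b.1 = if (rev (f a) ++ b.1) ∈ S ∧ (f a).length ∈ spl σ K (rev (f a) ++ b.1) then
      ENNReal.ofReal xc * wE (rev (f a) ++ b.1) else 0
    rw [if_pos h2]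
    conv_lhs => rw [hfg a]
    exact wE_join _ _ _
  calc gf (VEs m σ) * gf (FW m K) = ∑' q : VEs m σ × FW m K, wE q.1.1 * wE q.2.1 := by
        unfold gf
        rw [← ENNReal.tsum_mul_right]
        simp_rw [← ENNReal.tsum_mul_left]
        rw [← ENNReal.tsum_prod]
    _ = ∑' q : VEs m σ × FW m K, G (F q) := tsum_congr hval
    _ ≤ ∑' q, G q := ENNReal.tsum_comp_le_tsum_of_injective hFinj G
    _ = ∑' x : Bool, ∑' t : List Bool, ∑' p : ℕ, G (x, t, p) := by
        rw [ENNReal.tsum_prod']
        refine tsum_congr fun x => ?_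
        rw [ENNReal.tsum_prod']
    _ ≤ ∑' x : Bool, ∑' t : List Bool, S.indicator (fun t => ENNReal.ofReal (xc * (K + 1)) * wE t) t := by
        refine ENNReal.tsum_le_tsum fun x => ENNReal.tsum_le_tsum fun t => ?_
        by_cases ht : t ∈ S
        · rw [Set.indicator_of_mem ht]
          have h1 : ∑' p : ℕ, G (x, t, p) = ∑ p ∈ spl σ K t, ENNReal.ofReal xc * wE t := by
            rw [tsum_eq_sum (s := spl σ K t)]
            · refine Finset.sum_congr rfl fun p hp => ?_
              show (if t ∈ S ∧ p ∈ spl σ K t then ENNReal.ofReal xc * wE t else 0) = _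
              rw [if_pos ⟨ht, hp⟩]
            · intro p hp
              show (if t ∈ S ∧ p ∈ spl σ K t then ENNReal.ofReal xc * wE t else 0) = 0
              rw [if_neg (fun h => hp h.2)]
          rw [h1, Finset.sum_const, nsmul_eq_mul, ← mul_assoc]
          refine mul_le_mul_left ?_ _
          have h2 : ((spl σ K t).card : ℝ≥0∞) ≤ ENNReal.ofReal ((K : ℝ) + 1) := by
            rw [← ENNReal.ofReal_natCast]
            apply ENNReal.ofReal_le_ofReal
            exact_mod_cast spl_card hσ K t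
          calc ((spl σ K t).card : ℝ≥0∞) * ENNReal.ofReal xc ≤ ENNReal.ofReal ((K : ℝ) + 1) * ENNReal.ofReal xc :=
                mul_le_mul_left h2 _
            _ = ENNReal.ofReal (xc * (K + 1)) := by
                rw [mul_comm, ← ENNReal.ofReal_mul hx0]
        · rw [Set.indicator_of_notMem ht]
          refine le_of_eq ?_
          rw [ENNReal.tsum_eq_zero]
          intro p
          show (if t ∈ S ∧ p ∈ spl σ K t then ENNReal.ofReal xc * wE t else 0) = 0
          rw [if_neg (fun h => ht h.1)]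
    _ = ENNReal.ofReal (2 * xc * (K + 1)) * Chi (2 * m + 1) := by
        rw [hchi]
        have h1 : ∑' t : List Bool, S.indicator (fun t => ENNReal.ofReal (xc * (K + 1)) * wE t) t =
            ENNReal.ofReal (xc * (K + 1)) * gf S := by
          unfold gf
          rw [← tsum_subtype S (fun t => ENNReal.ofReal (xc * (K + 1)) * wE t), ENNReal.tsum_mul_left]
        simp_rw [h1]
        rw [tsum_bool, ← add_mul, ← ENNReal.ofReal_add (by positivity) (by positivity)]
        congr 2
        ring

end BAR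

end HexObs
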